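import Pool.Agent.Helper40.OL.Spec

set_option autoImplicit false

namespace Pool.Agent.Helper3.OL

open Pool.Agent.Helper40.OL

variable {R : Type} [Ring R]

/-! ### FPEQ -/

theorem fpn_congr : ∀ (n : ℕ) (M N : Type) [AddCommGroup M] [Module R M] [AddCommGroup N]
    [Module R N] (_ : M ≃ₗ[R] N), FPn (R := R) n M → FPn (R := R) n N
  | 0, M, N, _, _, _, _, e, h => by
    have : Module.Finite R M := h
    exact Module.Finite.equiv e
  | n + 1, M, N, _, _, _, _, e, h => by
    obtain ⟨k, f, hf, hk⟩ := h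
    refine ⟨k, e.toLinearMap ∘ₗ f, e.surjective.comp hf, ?_⟩
    have h1 : LinearMap.ker (e.toLinearMap ∘ₗ f) = LinearMap.ker f := LinearEquiv.ker_comp e f
    exact fpn_congr n _ _ (LinearEquiv.ofEq _ _ h1.symm) hk

theorem fpeq_thm : S_FPEQ := fun R _ M N _ _ _ _ e n h => fpn_congr n M N e h

/-- A split surjection gives a product decomposition. -/
noncomputable def splitEquiv {B F : Type} [AddCommGroup B] [Module R B] [AddCommGroup F] [Module R F]
    (p : B →ₗ[R] F) (s : F →ₗ[R] B) (hs : ∀ x, p (s x) = x) : B ≃ₗ[R] (LinearMap.ker p × F) where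
  toFun b := (⟨b - s (p b), by simp [hs]⟩, p b)
  map_add' a b := by
    ext
    · simp; abel
    · simp
  map_smul' c b := by
    ext
    · simp [smul_sub]
    · simp
  invFun x := x.1.1 + s x.2
  left_inv b := by simp
  right_inv x := by
    obtain ⟨⟨a, ha⟩, y⟩ := x
    have ha' : p a = 0 := ha
    ext
    · simp [ha', hs]
    · simp [ha', hs]

/-- The splitting for a free module. -/
theorem exists_split {B : Type} [AddCommGroup B] [Module R B] {k : ℕ} (p : B →ₗ[R] (Fin k → R))
    (hp : Function.Surjective p) : Nonempty (B ≃ₗ[R] (LinearMap.ker p × (Fin k → R))) := by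
  obtain ⟨s, hs⟩ := Module.projective_lifting_property p LinearMap.id hp
  exact ⟨splitEquiv p s fun x => by simpa using LinearMap.congr_fun hs x⟩

/-- `R^a × R^b ≃ R^(a+b)`. -/
noncomputable def appE (a b : ℕ) : (Fin (a + b) → R) ≃ₗ[R] ((Fin a → R) × (Fin b → R)) :=
  (LinearEquiv.funCongrLeft R R finSumFinEquiv).trans (LinearEquiv.sumArrowLequivProdArrow (Fin a) (Fin b) R R)

/-- `FPn (n+1)` from a surjection from `R^a × R^b`. -/
theorem fpn_succ_of_prod {n a b : ℕ} {M : Type} [AddCommGroup M] [Module R M]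
    (f : ((Fin a → R) × (Fin b → R)) →ₗ[R] M) (hf : Function.Surjective f)
    (hk : FPn (R := R) n (LinearMap.ker f)) : FPn (R := R) (n + 1) M := by
  refine ⟨a + b, f ∘ₗ (appE a b).toLinearMap, hf.comp (appE a b).surjective, ?_⟩
  refine fpn_congr n _ _ ?_ hk
  refine LinearEquiv.symm ?_
  exact (appE (R := R) a b).ofSubmodules (LinearMap.ker (f ∘ₗ (appE a b).toLinearMap)) (LinearMap.ker f) (by
    ext x
    constructor
    · rintro ⟨y, hy, rfl⟩
      exact hy
    · intro hx
      refine ⟨(appE a b).symm x, ?_, by simp⟩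
      simpa using hx)

/-! ### SCH: the three facts -/

theorem fpn_prod_free : ∀ (n a : ℕ) (K : Type) [AddCommGroup K] [Module R K],
    FPn (R := R) n K → FPn (R := R) n (K × (Fin a → R))
  | 0, a, K, _, _, h => by
    have : Module.Finite R K := h
    exact (inferInstance : Module.Finite R (K × (Fin a → R)))
  | n + 1, a, K, _, _, h => by
    obtain ⟨c, f, hf, hk⟩ := h
    refine fpn_succ_of_prod (a := c) (b := a) (LinearMap.prodMap f LinearMap.id)
      (Function.Surjective.prodMap hf Function.surjective_id) ?_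
    refine fpn_congr n _ _ ?_ hk
    refine LinearEquiv.ofBijective
      (LinearMap.codRestrict (LinearMap.ker (LinearMap.prodMap f LinearMap.id))
        ((LinearMap.inl R (Fin c → R) (Fin a → R)) ∘ₗ (LinearMap.ker f).subtype) ?_) ⟨?_, ?_⟩
    · rintro ⟨x, hx⟩
      simpa using hx
    · rintro ⟨x, hx⟩ ⟨y, hy⟩ hxy
      have h1 := congrArg (fun z => ((z : LinearMap.ker (LinearMap.prodMap f LinearMap.id)) :
        (Fin c → R) × (Fin a → R)).1) hxy
      ext1
      exact h1
    · rintro ⟨⟨x, y⟩, hxy⟩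
      have h1 : f x = 0 ∧ y = 0 := by simpa using hxy
      refine ⟨⟨x, h1.1⟩, ?_⟩
      ext1
      simp [h1.2]

theorem fpn_of_prod_free : ∀ (n a : ℕ) (K : Type) [AddCommGroup K] [Module R K],
    FPn (R := R) n (K × (Fin a → R)) → FPn (R := R) n K
  | 0, a, K, _, _, h => by
    have : Module.Finite R (K × (Fin a → R)) := h
    exact Module.Finite.of_surjective (LinearMap.fst R K (Fin a → R)) Prod.fst_surjective
  | n + 1, a, K, _, _, h => by
    obtain ⟨c, g, hg, hk⟩ := h
    refine ⟨c, LinearMap.fst R K (Fin a → R) ∘ₗ g, Prod.fst_surjective.comp hg, ?_⟩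
    -- the map `ker (fst ∘ g) → R^a`
    let D := LinearMap.ker (LinearMap.fst R K (Fin a → R) ∘ₗ g)
    let p : D →ₗ[R] (Fin a → R) := (LinearMap.snd R K (Fin a → R) ∘ₗ g) ∘ₗ D.subtype
    have hp : Function.Surjective p := by
      intro y
      obtain ⟨x, hx⟩ := hg (0, y)
      refine ⟨⟨x, ?_⟩, ?_⟩
      · show (g x).1 = 0
        rw [hx]
      · show (g x).2 = y
        rw [hx]
    obtain ⟨e⟩ := exists_split p hp
    have e2 : LinearMap.ker g ≃ₗ[R] LinearMap.ker p := by
      refine LinearEquiv.ofBijective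
        (LinearMap.codRestrict (LinearMap.ker p)
          (LinearMap.codRestrict D (LinearMap.ker g).subtype ?_) ?_) ⟨?_, ?_⟩
      · rintro ⟨x, hx⟩
        show (g x).1 = 0
        rw [show g x = 0 from hx]; rfl
      · rintro ⟨x, hx⟩
        show (g x).2 = 0
        rw [show g x = 0 from hx]; rfl
      · rintro ⟨x, hx⟩ ⟨y, hy⟩ hxy
        have := congrArg (fun z => ((z : LinearMap.ker p) : D).1) hxy
        ext1
        exact this
      · rintro ⟨⟨x, hx⟩, hx2⟩
        have h1 : (g x).1 = 0 := hx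
        have h2 : (g x).2 = 0 := hx2
        exact ⟨⟨x, Prod.ext h1 h2⟩, rfl⟩
    have h2 : FPn (R := R) n (LinearMap.ker p) :=
      fpn_congr n (LinearMap.ker g) (LinearMap.ker p) e2 hk
    exact fpn_congr n _ _ e.symm (fpn_prod_free n a _ h2)

/-- The pullback of two maps. -/
abbrev Pb {A B C : Type} [AddCommGroup A] [Module R A] [AddCommGroup B] [Module R B] [AddCommGroup C]
    [Module R C] (f : A →ₗ[R] C) (g : B →ₗ[R] C) : Submodule R (A × B) :=
  LinearMap.ker (f ∘ₗ LinearMap.fst R A B - g ∘ₗ LinearMap.snd R A B)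

theorem mem_Pb {A B C : Type} [AddCommGroup A] [Module R A] [AddCommGroup B] [Module R B] [AddCommGroup C]
    [Module R C] (f : A →ₗ[R] C) (g : B →ₗ[R] C) (x : A × B) : x ∈ Pb f g ↔ f x.1 = g x.2 := by
  simp [Pb, sub_eq_zero]

/-- The kernel of the projection of the pullback to `B` is `ker f`. -/
theorem kerSnd {A B C : Type} [AddCommGroup A] [Module R A] [AddCommGroup B] [Module R B] [AddCommGroup C]
    [Module R C] (f : A →ₗ[R] C) (g : B →ₗ[R] C) :
    Nonempty (LinearMap.ker f ≃ₗ[R]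
      LinearMap.ker ((LinearMap.snd R A B ∘ₗ (Pb f g).subtype : Pb f g →ₗ[R] B))) := by
  refine ⟨LinearEquiv.ofBijective
    (LinearMap.codRestrict _
      (LinearMap.codRestrict (Pb f g) (LinearMap.inl R A B ∘ₗ (LinearMap.ker f).subtype) ?_) ?_) ⟨?_, ?_⟩⟩
  · rintro ⟨x, hx⟩
    rw [mem_Pb]
    simpa using hx
  · rintro ⟨x, hx⟩
    rfl
  · rintro ⟨x, hx⟩ ⟨y, hy⟩ hxy
    have := congrArg (fun z => ((z : LinearMap.ker ((LinearMap.snd R A B ∘ₗ (Pb f g).subtype :
      Pb f g →ₗ[R] B))) : Pb f g).1.1) hxy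
    ext1
    exact this
  · rintro ⟨⟨⟨x, y⟩, hx⟩, hx2⟩
    have h2 : y = 0 := hx2
    subst h2
    rw [mem_Pb] at hx
    refine ⟨⟨x, by simpa using hx⟩, rfl⟩

theorem kerFst {A B C : Type} [AddCommGroup A] [Module R A] [AddCommGroup B] [Module R B] [AddCommGroup C]
    [Module R C] (f : A →ₗ[R] C) (g : B →ₗ[R] C) :
    Nonempty (LinearMap.ker g ≃ₗ[R]
      LinearMap.ker ((LinearMap.fst R A B ∘ₗ (Pb f g).subtype : Pb f g →ₗ[R] A))) := by
  refine ⟨LinearEquiv.ofBijective
    (LinearMap.codRestrict _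
      (LinearMap.codRestrict (Pb f g) (LinearMap.inr R A B ∘ₗ (LinearMap.ker g).subtype) ?_) ?_) ⟨?_, ?_⟩⟩
  · rintro ⟨x, hx⟩
    rw [mem_Pb]
    simpa using (show g x = 0 from hx).symm
  · rintro ⟨x, hx⟩
    rfl
  · rintro ⟨x, hx⟩ ⟨y, hy⟩ hxy
    have := congrArg (fun z => ((z : LinearMap.ker ((LinearMap.fst R A B ∘ₗ (Pb f g).subtype :
      Pb f g →ₗ[R] A))) : Pb f g).1.2) hxy
    ext1
    exact this
  · rintro ⟨⟨⟨x, y⟩, hx⟩, hx2⟩
    have h2 : x = 0 := hx2
    subst h2
    rw [mem_Pb] at hx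
    refine ⟨⟨y, by simpa using hx.symm⟩, rfl⟩

theorem snd_surj {A B C : Type} [AddCommGroup A] [Module R A] [AddCommGroup B] [Module R B] [AddCommGroup C]
    [Module R C] (f : A →ₗ[R] C) (g : B →ₗ[R] C) (hf : Function.Surjective f) :
    Function.Surjective ((LinearMap.snd R A B ∘ₗ (Pb f g).subtype : Pb f g →ₗ[R] B)) := by
  intro y
  obtain ⟨x, hx⟩ := hf (g y)
  exact ⟨⟨(x, y), (mem_Pb f g _).2 hx⟩, rfl⟩

theorem fst_surj {A B C : Type} [AddCommGroup A] [Module R A] [AddCommGroup B] [Module R B] [AddCommGroup C]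
    [Module R C] (f : A →ₗ[R] C) (g : B →ₗ[R] C) (hg : Function.Surjective g) :
    Function.Surjective ((LinearMap.fst R A B ∘ₗ (Pb f g).subtype : Pb f g →ₗ[R] A)) := by
  intro x
  obtain ⟨y, hy⟩ := hg (f x)
  exact ⟨⟨(x, y), (mem_Pb f g _).2 hy.symm⟩, rfl⟩

theorem fpn_split (n : ℕ) {B : Type} [AddCommGroup B] [Module R B] {k : ℕ} (p : B →ₗ[R] (Fin k → R))
    (hp : Function.Surjective p) : FPn (R := R) n B ↔ FPn (R := R) n (LinearMap.ker p) := by
  obtain ⟨e⟩ := exists_split p hp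
  constructor
  · intro h
    exact fpn_of_prod_free n k _ (fpn_congr n _ _ e h)
  · intro h
    exact fpn_congr n _ _ e.symm (fpn_prod_free n k _ h)

theorem fpn_kerSnd (n : ℕ) {A B C : Type} [AddCommGroup A] [Module R A] [AddCommGroup B] [Module R B]
    [AddCommGroup C] [Module R C] (f : A →ₗ[R] C) (g : B →ₗ[R] C) :
    FPn (R := R) n (LinearMap.ker f) ↔
      FPn (R := R) n (LinearMap.ker ((LinearMap.snd R A B ∘ₗ (Pb f g).subtype : Pb f g →ₗ[R] B))) := by
  obtain ⟨e⟩ := kerSnd f g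
  exact ⟨fun h => fpn_congr n _ _ e h, fun h => fpn_congr n _ _ e.symm h⟩

theorem fpn_kerFst (n : ℕ) {A B C : Type} [AddCommGroup A] [Module R A] [AddCommGroup B] [Module R B]
    [AddCommGroup C] [Module R C] (f : A →ₗ[R] C) (g : B →ₗ[R] C) :
    FPn (R := R) n (LinearMap.ker g) ↔
      FPn (R := R) n (LinearMap.ker ((LinearMap.fst R A B ∘ₗ (Pb f g).subtype : Pb f g →ₗ[R] A))) := by
  obtain ⟨e⟩ := kerFst f g
  exact ⟨fun h => fpn_congr n _ _ e h, fun h => fpn_congr n _ _ e.symm h⟩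

theorem fpn_schanuel (n : ℕ) (M : Type) [AddCommGroup M] [Module R M] (h : FPn (R := R) (n + 1) M)
    (k : ℕ) (f : (Fin k → R) →ₗ[R] M) (hf : Function.Surjective f) :
    FPn (R := R) n (LinearMap.ker f) := by
  obtain ⟨b, g, hg, hk⟩ := h
  -- pullback of `f` and `g`
  rw [fpn_kerSnd n f g, ← fpn_split n _ (snd_surj f g hf), fpn_split n _ (fst_surj f g hg),
    ← fpn_kerFst n f g]
  exact hk

theorem sch_thm : S_SCH := fun R _ M _ _ n h k f hf => fpn_schanuel n M h k f hf

/-! ### TWO -/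

theorem fpn_mono : ∀ (n : ℕ) (B : Type) [AddCommGroup B] [Module R B],
    FPn (R := R) (n + 1) B → FPn (R := R) n B
  | 0, B, _, _, h => by
    obtain ⟨k, f, hf, -⟩ := h
    exact Module.Finite.of_surjective f hf
  | n + 1, B, _, _, h => by
    obtain ⟨k, f, hf, hk⟩ := h
    exact ⟨k, f, hf, fpn_mono n _ hk⟩

theorem fpn_ext : ∀ (n : ℕ) (A B C : Type) [AddCommGroup A] [Module R A] [AddCommGroup B] [Module R B]
    [AddCommGroup C] [Module R C] (i : A →ₗ[R] B) (p : B →ₗ[R] C), Function.Injective i →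
    Function.Surjective p → LinearMap.range i = LinearMap.ker p →
    FPn (R := R) n A → FPn (R := R) n C → FPn (R := R) n B
  | 0, A, B, C, _, _, _, _, _, _, i, p, hi, hp, hip, hA, hC => by
    have : Module.Finite R A := hA
    have : Module.Finite R C := hC
    have h1 : Module.Finite R (LinearMap.ker p) := by
      rw [← hip]
      exact Module.Finite.range i
    have h2 : Module.Finite R (B ⧸ LinearMap.ker p) :=
      Module.Finite.equiv (p.quotKerEquivOfSurjective hp).symm
    exact Module.Finite.of_submodule_quotient (LinearMap.ker p)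
  | n + 1, A, B, C, _, _, _, _, _, _, i, p, hi, hp, hip, hA, hC => by
    obtain ⟨a, f, hf, hkf⟩ := hA
    obtain ⟨c, g, hg, hkg⟩ := hC
    obtain ⟨g', hg'⟩ := Module.projective_lifting_property p g hp
    have hg'' : ∀ y, p (g' y) = g y := fun y => LinearMap.congr_fun hg' y
    have hpi : ∀ x, p (i x) = 0 := fun x => by
      have : i x ∈ LinearMap.ker p := hip ▸ LinearMap.mem_range_self i x
      exact this
    let h : ((Fin a → R) × (Fin c → R)) →ₗ[R] B := LinearMap.coprod (i ∘ₗ f) g'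
    have hh : ∀ x y, h (x, y) = i (f x) + g' y := fun x y => by simp [h]
    refine fpn_succ_of_prod h ?_ ?_
    · intro b
      obtain ⟨y, hy⟩ := hg (p b)
      have h1 : b - g' y ∈ LinearMap.range i := by
        rw [hip, LinearMap.mem_ker, map_sub, hg'', hy, sub_self]
      obtain ⟨z, hz⟩ := h1
      obtain ⟨x, hx⟩ := hf z
      refine ⟨(x, y), ?_⟩
      rw [hh, hx, hz]; abel
    · refine fpn_ext n (LinearMap.ker f) (LinearMap.ker h) (LinearMap.ker g)
        (LinearMap.codRestrict (LinearMap.ker h)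
          (LinearMap.inl R (Fin a → R) (Fin c → R) ∘ₗ (LinearMap.ker f).subtype) ?_)
        (LinearMap.codRestrict (LinearMap.ker g)
          (LinearMap.snd R (Fin a → R) (Fin c → R) ∘ₗ (LinearMap.ker h).subtype) ?_) ?_ ?_ ?_ hkf hkg
      · rintro ⟨x, hx⟩
        have hx' : f x = 0 := hx
        show h (x, 0) = 0
        rw [hh, hx']; simp
      · rintro ⟨⟨x, y⟩, hxy⟩
        have hxy' : h (x, y) = 0 := hxy
        show g y = 0
        rw [hh] at hxy'
        have := congrArg p hxy'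
        rw [map_add, hpi, hg'', zero_add, map_zero] at this
        exact this
      · rintro ⟨x, hx⟩ ⟨x', hx'⟩ hxx
        have := congrArg (fun z => ((z : LinearMap.ker h) : (Fin a → R) × (Fin c → R)).1) hxx
        ext1
        exact this
      · rintro ⟨y, hy⟩
        have hy' : g y = 0 := hy
        have h1 : g' y ∈ LinearMap.range i := by
          rw [hip, LinearMap.mem_ker, hg'', hy']
        obtain ⟨z, hz⟩ := h1
        obtain ⟨x, hx⟩ := hf z
        refine ⟨⟨(-x, y), ?_⟩, rfl⟩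
        show h (-x, y) = 0
        rw [hh, map_neg, map_neg, hx, hz]; simp
      · ext ⟨⟨x, y⟩, hxy⟩
        have hxy' : h (x, y) = 0 := hxy
        constructor
        · rintro ⟨⟨x', hx'⟩, hh'⟩
          have h3 := congrArg (fun z => ((z : LinearMap.ker h) : (Fin a → R) × (Fin c → R)).2) hh'
          have h4 : (0 : Fin c → R) = y := h3
          rw [LinearMap.mem_ker]
          ext1
          exact h4.symm
        · intro hy
          rw [LinearMap.mem_ker] at hy
          have hy' : y = 0 := congrArg Subtype.val hy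
          subst hy'
          rw [hh, map_zero, add_zero] at hxy'
          have hx : f x = 0 := hi (by rw [hxy', map_zero])
          exact ⟨⟨x, hx⟩, rfl⟩

/-- Quotients: `A ∈ FP_n`, `B ∈ FP_{n+1}` imply `C ∈ FP_{n+1}`. -/
theorem fpn_quot (n : ℕ) (A B C : Type) [AddCommGroup A] [Module R A] [AddCommGroup B] [Module R B]
    [AddCommGroup C] [Module R C] (i : A →ₗ[R] B) (p : B →ₗ[R] C) (hi : Function.Injective i)
    (hp : Function.Surjective p) (hip : LinearMap.range i = LinearMap.ker p)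
    (hA : FPn (R := R) n A) (hB : FPn (R := R) (n + 1) B) : FPn (R := R) (n + 1) C := by
  obtain ⟨b, f, hf, hkf⟩ := hB
  refine ⟨b, p ∘ₗ f, hp.comp hf, ?_⟩
  -- `ker (p ∘ f)` maps onto `ker p = A` with kernel `ker f`
  have e : LinearMap.ker p ≃ₗ[R] A :=
    (LinearEquiv.ofEq _ _ hip.symm).trans (LinearEquiv.ofInjective i hi).symm
  have hkp : FPn (R := R) n (LinearMap.ker p) := fpn_congr n _ _ e.symm hA
  refine fpn_ext n (LinearMap.ker f) (LinearMap.ker (p ∘ₗ f)) (LinearMap.ker p)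
    (LinearMap.codRestrict _ (LinearMap.ker f).subtype ?_)
    (LinearMap.codRestrict _ (f ∘ₗ (LinearMap.ker (p ∘ₗ f)).subtype) ?_) ?_ ?_ ?_ hkf hkp
  · rintro ⟨x, hx⟩
    show p (f x) = 0
    rw [show f x = 0 from hx, map_zero]
  · rintro ⟨x, hx⟩
    exact hx
  · rintro ⟨x, hx⟩ ⟨y, hy⟩ hxy
    have := congrArg (fun z => (z : LinearMap.ker (p ∘ₗ f)).1) hxy
    ext1
    exact this
  · rintro ⟨y, hy⟩
    obtain ⟨x, rfl⟩ := hf y
    exact ⟨⟨x, hy⟩, rfl⟩
  · ext ⟨x, hx⟩
    constructor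
    · rintro ⟨⟨x', hx'⟩, hh⟩
      have h1 : x' = x := congrArg (fun z => (z : LinearMap.ker (p ∘ₗ f)).1) hh
      subst h1
      rw [LinearMap.mem_ker]
      ext1
      exact hx'
    · intro h
      rw [LinearMap.mem_ker] at h
      have h1 : f x = 0 := congrArg Subtype.val h
      exact ⟨⟨x, h1⟩, rfl⟩

/-- Kernels: `B ∈ FP_n`, `C ∈ FP_{n+1}` imply `A ∈ FP_n`. -/
theorem fpn_ker (n : ℕ) (A B C : Type) [AddCommGroup A] [Module R A] [AddCommGroup B] [Module R B]
    [AddCommGroup C] [Module R C] (i : A →ₗ[R] B) (p : B →ₗ[R] C) (hi : Function.Injective i)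
    (hp : Function.Surjective p) (hip : LinearMap.range i = LinearMap.ker p)
    (hB : FPn (R := R) n B) (hC : FPn (R := R) (n + 1) C) : FPn (R := R) n A := by
  obtain ⟨c, g, hg, hkg⟩ := hC
  have e : LinearMap.ker p ≃ₗ[R] A :=
    (LinearEquiv.ofEq _ _ hip.symm).trans (LinearEquiv.ofInjective i hi).symm
  have h1 : FPn (R := R) n (Pb p g) :=
    fpn_ext n _ (Pb p g) B (LinearMap.ker ((LinearMap.fst R B (Fin c → R) ∘ₗ (Pb p g).subtype :
      Pb p g →ₗ[R] B))).subtype (LinearMap.fst R B (Fin c → R) ∘ₗ (Pb p g).subtype)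
      Subtype.val_injective (fst_surj p g hg) (Submodule.range_subtype _)
      ((fpn_kerFst n p g).1 hkg) hB
  have h2 : FPn (R := R) n (LinearMap.ker p) := by
    rw [fpn_kerSnd n p g, ← fpn_split n _ (snd_surj p g hp)]
    exact h1
  exact fpn_congr n _ _ e h2

theorem two_thm : S_TWO := fun R _ A B C _ _ _ _ _ _ i p hi hp hip n =>
  ⟨fpn_ext n A B C i p hi hp hip, fpn_quot n A B C i p hi hp hip, fpn_ker n A B C i p hi hp hip,
    fpn_mono n B⟩

/-! ### RES -/

theorem fpn_res : ∀ (k : ℕ) (C : ℕ → Type) [∀ i, AddCommGroup (C i)]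
    [∀ i, Module R (C i)] (d : ∀ i, C (i + 1) →ₗ[R] C i) (M : Type) [AddCommGroup M] [Module R M]
    (ε : C 0 →ₗ[R] M), Function.Surjective ε → (0 < k → LinearMap.range (d 0) = LinearMap.ker ε) →
    (∀ i, i + 1 < k → LinearMap.range (d (i + 1)) = LinearMap.ker (d i)) →
    (∀ i n, FPn (R := R) n (C i)) → FPn (R := R) k M
  | 0, C, _, _, d, M, _, _, ε, hε, _, _, hC => by
    have : Module.Finite R (C 0) := hC 0 0
    exact Module.Finite.of_surjective ε hε
  | k + 1, C, _, _, d, M, _, _, ε, hε, h0, h1, hC => by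
    have h0' := h0 (Nat.succ_pos k)
    have hmem : ∀ x, d 0 x ∈ LinearMap.ker ε := fun x => h0' ▸ LinearMap.mem_range_self (d 0) x
    have hK : FPn (R := R) k (LinearMap.ker ε) := by
      refine fpn_res k (fun i => C (i + 1)) (fun i => d (i + 1)) (LinearMap.ker ε)
        (LinearMap.codRestrict (LinearMap.ker ε) (d 0) hmem) ?_ ?_ ?_ (fun i n => hC (i + 1) n)
      · rintro ⟨x, hx⟩
        rw [← h0'] at hx
        obtain ⟨y, hy⟩ := hx
        exact ⟨y, Subtype.ext hy⟩
      · intro hk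
        rw [LinearMap.ker_codRestrict]
        exact h1 0 (by omega)
      · intro i hi
        exact h1 (i + 1) (by omega)
    exact fpn_quot k (LinearMap.ker ε) (C 0) M (LinearMap.ker ε).subtype ε Subtype.val_injective hε
      (Submodule.range_subtype _) hK (hC 0 (k + 1))

theorem res_thm : S_RES := fun R _ k C _ _ d M _ _ ε hε h0 h1 hC => fpn_res k C d M ε hε h0 h1 hC

end Pool.Agent.Helper3.OL
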